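import Pool.Agent.X268.WM.Stm

/-!
# Homomorphisms from the symmetric powers of the cohomology of a log Tate curve
-/

set_option autoImplicit false

namespace Pool.Agent.X268.EV

open Module Pool.Agent.X268.WM
open scoped TensorProduct

universe u

variable {Ω : Type} [Field Ω] {q : ℕ}

/-- The family `f j`, `0 ≤ j ≤ t`, of the images of the monomials `e₁ ^ (t - j) e₂ ^ j` under a homomorphism
from `Sym ^ t H¹(E)` to the `r`-th twist of `P` (with Frobenius `F` and monodromy operator `N`): here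
`E` is a log Tate curve, `H¹(E)` has the basis `e₁, e₂` with `F e₁ = e₁`, `N e₁ = 0`, `F e₂ = q e₂`,
`N e₂ = e₁`. -/
def IsHomSym {P : Type u} [AddCommGroup P] [Module Ω P] (q : ℕ) (F N : End Ω P) (r : ℤ) (t : ℕ)
    (f : ℕ → P) : Prop :=
  ∀ j ≤ t, F (f j) = (q : Ω) ^ (r + j) • f j ∧ N (f j) = (j : Ω) • f (j - 1)

/-- The evaluation at `e₁ ^ t` of the homomorphisms from `Sym ^ t H¹(E)` to `P (r)` is surjective onto the
invariants of `P (r)`, for all `r` and `t ≥ 0` with `2 r + t = m`. -/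
def EvaluationSurjective {P : Type u} [AddCommGroup P] [Module Ω P] (q : ℕ) (F N : End Ω P) (m : ℕ) :
    Prop :=
  ∀ (r : ℤ) (t : ℕ), 2 * r + t = m → ∀ z : P, F z = (q : Ω) ^ r • z → N z = 0 →
    ∃ f : ℕ → P, IsHomSym q F N r t f ∧ f 0 = z

/-- Poincaré duality on the cohomology `W` of degree `n = dim X`. -/
def SelfDual (W : FN.{u} Ω q) (n : ℕ) : Prop :=
  ∃ B : W.V →ₗ[Ω] W.V →ₗ[Ω] Ω, (∀ x, (∀ y, B x y = 0) → x = 0) ∧
    (∀ x y, B (W.F x) (W.F y) = (q : Ω) ^ n * B x y) ∧ ∀ x y, B (W.N x) y = -B x (W.N y)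

end Pool.Agent.X268.EV
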