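import Pool.Agent.X268.WM.Main
import Pool.Agent.X268.EV.Stm

/-!
# Purity from the surjectivity of the evaluation
-/

set_option autoImplicit false
set_option linter.unusedSectionVars false

namespace Pool.Agent.X268.EV

open Module Pool.Agent.X268.WM
open scoped TensorProduct

universe u

variable {Ω : Type} [Field Ω] [CharZero Ω] {q : ℕ}

theorem IsHomSym.pow {P : Type u} [AddCommGroup P] [Module Ω P] {F N : End Ω P} {r : ℤ} {t : ℕ}
    {f : ℕ → P} (hf : IsHomSym q F N r t f) (s : ℕ) (hs : s ≤ t) :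
    (N ^ s) (f t) = ((t.factorial : Ω) / ((t - s).factorial : Ω)) • f (t - s) := by
  induction s with
  | zero => simp [div_self (Nat.cast_ne_zero.2 t.factorial_ne_zero : (t.factorial : Ω) ≠ 0)]
  | succ s ih =>
    rw [pow_succ', Module.End.mul_apply, ih (by omega), map_smul, (hf (t - s) (by omega)).2,
      smul_smul]
    obtain ⟨c, hc⟩ : ∃ c, t - s = c + 1 := ⟨t - s - 1, by omega⟩
    rw [hc, show t - (s + 1) = c by omega, Nat.add_sub_cancel, Nat.factorial_succ]
    congr 1
    have h1 : (c.factorial : Ω) ≠ 0 := Nat.cast_ne_zero.2 c.factorial_ne_zero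
    have h2 : ((c : Ω) + 1) ≠ 0 := by exact_mod_cast (Nat.succ_ne_zero c)
    push_cast
    field_simp

/-- The vector whose image under `N ^ t` is the given one. -/
theorem exists_of_evaluation {P : Type u} [AddCommGroup P] [Module Ω P] {F N : End Ω P} {m : ℕ}
    (h : EvaluationSurjective q F N m) {r : ℤ} {t : ℕ} (hrt : 2 * r + t = m) {z : P}
    (hF : F z = (q : Ω) ^ r • z) (hN : N z = 0) :
    ∃ u, F u = (q : Ω) ^ (r + t) • u ∧ (N ^ t) u = z := by
  obtain ⟨f, hf, rfl⟩ := h r t hrt z hF hN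
  have h1 : (t.factorial : Ω) ≠ 0 := Nat.cast_ne_zero.2 t.factorial_ne_zero
  refine ⟨(t.factorial : Ω)⁻¹ • f t, ?_, ?_⟩
  · rw [map_smul, (hf t le_rfl).1, smul_comm]
  · rw [map_smul, hf.pow t le_rfl, Nat.sub_self, Nat.factorial_zero, Nat.cast_one, div_one,
      smul_smul, inv_mul_cancel₀ h1, one_smul]

/-! ### The `sl₂`-like operators -/

section sl2

variable {V : Type u} [AddCommGroup V] [Module Ω V] {N f g : End Ω V}

theorem g_mul_pow (hg : g * N = N * g - N) (b : ℕ) : g * N ^ b = N ^ b * g - (b : Ω) • N ^ b := by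
  induction b with
  | zero => simp
  | succ b ih =>
    rw [pow_succ', ← mul_assoc, hg, sub_mul, mul_assoc, ih]
    push_cast
    rw [mul_sub, mul_smul_comm, add_smul, one_smul, mul_assoc]
    abel

theorem pow_mul_f (hf : N * f = f * N + g) (hg : g * N = N * g - N) (j : ℕ) :
    (2 : Ω) • (N ^ (j + 1) * f) = (2 : Ω) • (f * N ^ (j + 1)) +
      ((j : Ω) + 1) • (N ^ j * ((2 : Ω) • g - (j : Ω) • (1 : End Ω V))) := by
  induction j with
  | zero =>
    simp only [zero_add, pow_one, pow_zero, one_mul, Nat.cast_zero, zero_smul, sub_zero, one_smul]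
    rw [hf, smul_add]
  | succ j ih =>
    have h1 : (2 : Ω) • (N ^ (j + 1 + 1) * f) = N * ((2 : Ω) • (N ^ (j + 1) * f)) := by
      rw [mul_smul_comm, ← mul_assoc, ← pow_succ']
    have h2 := g_mul_pow (Ω := Ω) hg (j + 1)
    rw [h1, ih, mul_add, mul_smul_comm, mul_smul_comm, ← mul_assoc N f, hf, add_mul, mul_assoc,
      ← pow_succ', h2, ← mul_assoc, ← pow_succ']
    simp only [mul_sub, mul_smul_comm, smul_sub, smul_smul, smul_add, mul_one]
    push_cast
    module

/-- The action of `g` on the kernel of `N`. -/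
theorem depth_lemma (hf : N * f = f * N + g) (hg : g * N = N * g - N) {x : V} (hx : N x = 0) {j : ℕ}
    (hj : x ∈ LinearMap.range (N ^ j)) :
    (2 : Ω) • g x + (j : Ω) • x ∈ LinearMap.range (N ^ (j + 1)) := by
  obtain ⟨u, rfl⟩ := hj
  have h1 := LinearMap.congr_fun (pow_mul_f hf hg j) u
  have h2 : (N ^ (j + 1)) u = 0 := by
    rw [pow_succ', Module.End.mul_apply, hx]
  simp only [LinearMap.smul_apply, Module.End.mul_apply, LinearMap.add_apply, h2, map_zero,
    smul_zero, zero_add, LinearMap.sub_apply, Module.End.one_apply, map_sub, map_smul] at h1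
  have h3 := LinearMap.congr_fun (g_mul_pow (Ω := Ω) hg j) u
  simp only [Module.End.mul_apply, LinearMap.sub_apply, LinearMap.smul_apply] at h3
  have h4 : ((j : Ω) + 1) ≠ 0 := by exact_mod_cast (Nat.succ_ne_zero j)
  refine ⟨((2 : Ω) * ((j : Ω) + 1)⁻¹) • f u, ?_⟩
  rw [map_smul, mul_comm, ← smul_smul, h1, smul_smul, inv_mul_cancel₀ h4, one_smul, h3]
  module

/-- A stable subspace of the kernel of `N` whose common eigenvectors have depth at least `s`. -/
theorem le_range_of_eigenvectors [IsAlgClosed Ω] [FiniteDimensional Ω V] {F : End Ω V}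
    (hNn : IsNilpotent N) (hf : N * f = f * N + g) (hg : g * N = N * g - N) (hgF : g * F = F * g)
    {K : Submodule Ω V} (hK : ∀ x ∈ K, N x = 0) (hKF : ∀ x ∈ K, F x ∈ K) (hKg : ∀ x ∈ K, g x ∈ K)
    {s : ℕ} (h : ∀ x ∈ K, ∀ a : Ω, F x = a • x → x ∈ LinearMap.range (N ^ s)) :
    K ≤ LinearMap.range (N ^ s) := by
  have hmain : ∀ j ≤ s, K ≤ LinearMap.range (N ^ j) := by
    intro j
    induction j with
    | zero =>
      intro _ x _
      exact ⟨x, by simp⟩
    | succ j ih =>
      intro hj
      have hKj := ih (by omega)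
      by_contra hcon
      let e : K →ₗ[Ω] K := ((2 : Ω) • g + (j : Ω) • (1 : End Ω V)).restrict fun x hx => by
        simp only [LinearMap.add_apply, LinearMap.smul_apply, Module.End.one_apply]
        exact K.add_mem (K.smul_mem _ (hKg x hx)) (K.smul_mem _ hx)
      have he : ∀ x : K, ((e x : K) : V) = (2 : Ω) • g (x : V) + (j : Ω) • (x : V) := fun x => rfl
      have hns : ¬ Function.Injective e := by
        intro hinj
        have hsurj := LinearMap.injective_iff_surjective.1 hinj
        refine hcon fun x hx => ?_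
        obtain ⟨y, hy⟩ := hsurj ⟨x, hx⟩
        have h1 := congrArg Subtype.val hy
        change ((e y : K) : V) = x at h1
        rw [← h1, he]
        exact depth_lemma hf hg (hK y y.2) (hKj y.2)
      -- the eigenspace
      have hker : LinearMap.ker e ≠ ⊥ := fun h1 => hns (LinearMap.ker_eq_bot.1 h1)
      let E : Submodule Ω V := (LinearMap.ker e).map K.subtype
      have hE : ∀ x : V, x ∈ E ↔ x ∈ K ∧ (2 : Ω) • g x + (j : Ω) • x = 0 := by
        intro x
        constructor
        · rintro ⟨y, hy, rfl⟩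
          exact ⟨y.2, (he y).symm.trans (congrArg Subtype.val (LinearMap.mem_ker.1 hy))⟩
        · rintro ⟨h1, h2⟩
          exact ⟨⟨x, h1⟩, LinearMap.mem_ker.2 (Subtype.ext h2), rfl⟩
      have hEF : ∀ x ∈ E, F x ∈ E := by
        intro x hx
        obtain ⟨h1, h2⟩ := (hE x).1 hx
        refine (hE _).2 ⟨hKF x h1, ?_⟩
        have h3 := LinearMap.congr_fun hgF x
        simp only [Module.End.mul_apply] at h3
        have h4 := congrArg F h2
        rw [map_add, map_smul, map_smul, map_zero] at h4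
        rw [h3]
        exact h4
      have hEne : Nontrivial E := by
        obtain ⟨y, hy, hy0⟩ := (Submodule.ne_bot_iff _).1 hker
        refine ⟨⟨⟨(y : V), ⟨y, hy, rfl⟩⟩, 0, fun h1 => hy0 (Subtype.ext ?_)⟩⟩
        exact (Subtype.ext_iff.1 h1 : (y : V) = 0)
      obtain ⟨a, ha⟩ := Module.End.exists_eigenvalue (F.restrict hEF)
      obtain ⟨x, hx⟩ := ha.exists_hasEigenvector
      have hx0 : (x : V) ≠ 0 := fun h1 => hx.2 (Subtype.ext h1)
      have hFx : F (x : V) = a • (x : V) := congrArg Subtype.val (Module.End.mem_eigenspace_iff.1 hx.1)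
      obtain ⟨hxK, hxg⟩ := (hE x).1 x.2
      have hall : ∀ d, s ≤ d → (x : V) ∈ LinearMap.range (N ^ d) := by
        intro d hd
        induction d, hd using Nat.le_induction with
        | base => exact h x hxK a hFx
        | succ d hd ih2 =>
          have h1 := depth_lemma (Ω := Ω) hf hg (hK x hxK) ih2
          have h2 : (2 : Ω) • g (x : V) + (d : Ω) • (x : V) = ((d : Ω) - j) • (x : V) := by
            rw [eq_neg_of_add_eq_zero_left hxg]
            module
          rw [h2] at h1
          have h3 : ((d : Ω) - j) ≠ 0 := by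
            rw [sub_ne_zero]
            exact_mod_cast (by omega : d ≠ j)
          have h4 := Submodule.smul_mem _ ((d : Ω) - j)⁻¹ h1
          rwa [smul_smul, inv_mul_cancel₀ h3, one_smul] at h4
      obtain ⟨c, hc⟩ := hNn
      obtain ⟨y, hy⟩ := hall (s + c) (Nat.le_add_right _ _)
      rw [pow_add, hc, mul_zero, LinearMap.zero_apply] at hy
      exact hx0 hy.symm
  exact hmain s le_rfl

end sl2

/-! ### Depth in the tensor product -/

section tensor

variable {W : FN.{u} Ω q}

theorem exists_functional {U : Submodule Ω W.V} {x : W.V} (hx : x ∉ U) :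
    ∃ φ : Dual Ω W.V, φ x ≠ 0 ∧ ∀ y ∈ U, φ y = 0 := by
  obtain ⟨φ, hφ, hU⟩ := Submodule.exists_dual_map_eq_bot_of_notMem hx inferInstance
  refine ⟨φ, hφ, fun y hy => ?_⟩
  have h1 : φ y ∈ U.map φ := Submodule.mem_map_of_mem hy
  rw [hU] at h1
  exact h1

theorem N2_pow_functional {j j' : ℕ} {φ ψ : Dual Ω W.V}
    (hφ : ∀ y, φ ((W.N ^ (j + 1)) y) = 0) (hψ : ∀ y, ψ ((W.N ^ (j' + 1)) y) = 0) {t : ℕ}
    (ht : j + j' < t) (z : W.V ⊗[Ω] W.V) :
    (LinearMap.mul' Ω Ω ∘ₗ TensorProduct.map φ ψ) ((W.N2 ^ t) z) = 0 := by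
  set A : End Ω (W.V ⊗[Ω] W.V) := TensorProduct.map W.N LinearMap.id with hA
  set B : End Ω (W.V ⊗[Ω] W.V) := TensorProduct.map LinearMap.id W.N with hB
  have hcomm : Commute A B := by
    refine TensorProduct.ext' fun u v => ?_
    rw [Module.End.mul_apply, Module.End.mul_apply, hA, hB, TensorProduct.map_tmul,
      TensorProduct.map_tmul, TensorProduct.map_tmul, TensorProduct.map_tmul]
    rfl
  have hApow : ∀ r u v, (A ^ r) (u ⊗ₜ[Ω] v) = ((W.N ^ r) u) ⊗ₜ[Ω] v := by
    intro r u v
    induction r with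
    | zero => simp
    | succ r ih => rw [pow_succ', Module.End.mul_apply, ih, hA, TensorProduct.map_tmul, pow_succ',
        Module.End.mul_apply, LinearMap.id_apply]
  have hBpow : ∀ r u v, (B ^ r) (u ⊗ₜ[Ω] v) = u ⊗ₜ[Ω] ((W.N ^ r) v) := by
    intro r u v
    induction r with
    | zero => simp
    | succ r ih => rw [pow_succ', Module.End.mul_apply, ih, hB, TensorProduct.map_tmul, pow_succ',
        Module.End.mul_apply, LinearMap.id_apply]
  have hN2 : W.N2 = A + B := rfl
  induction z using TensorProduct.induction_on with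
  | zero => rw [map_zero, map_zero]
  | add z z' h1 h2 => rw [map_add, map_add, h1, h2, add_zero]
  | tmul u v =>
    rw [hN2, hcomm.add_pow', LinearMap.sum_apply, map_sum]
    refine Finset.sum_eq_zero fun p hp => ?_
    rw [Finset.HasAntidiagonal.mem_antidiagonal] at hp
    rw [LinearMap.smul_apply, map_nsmul, Module.End.mul_apply, hBpow, hApow, LinearMap.comp_apply,
      TensorProduct.map_tmul, LinearMap.mul'_apply]
    rcases Nat.lt_or_ge j p.1 with h | h
    · obtain ⟨c, hc⟩ := Nat.exists_eq_add_of_lt h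
      rw [hc, show j + c + 1 = (j + 1) + c by omega, pow_add, Module.End.mul_apply, hφ, zero_mul,
        smul_zero]
    · obtain ⟨c, hc⟩ := Nat.exists_eq_add_of_lt (show j' < p.2 by omega)
      rw [hc, show j' + c + 1 = (j' + 1) + c by omega, pow_add, Module.End.mul_apply, hψ, mul_zero,
        smul_zero]

/-- The depth of a tensor. -/
theorem tensor_depth {j j' : ℕ} {x y : W.V} (hx : x ∉ LinearMap.range (W.N ^ (j + 1)))
    (hy : y ∉ LinearMap.range (W.N ^ (j' + 1))) {t : ℕ} (ht : j + j' < t) :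
    x ⊗ₜ[Ω] y ∉ LinearMap.range (W.N2 ^ t) := by
  rintro ⟨z, hz⟩
  obtain ⟨φ, hφx, hφ⟩ := exists_functional hx
  obtain ⟨ψ, hψy, hψ⟩ := exists_functional hy
  have h1 := N2_pow_functional (W := W) (fun w => hφ _ ⟨w, rfl⟩) (fun w => hψ _ ⟨w, rfl⟩) ht z
  rw [hz, LinearMap.comp_apply, TensorProduct.map_tmul, LinearMap.mul'_apply] at h1
  exact mul_ne_zero hφx hψy h1

end tensor

end Pool.Agent.X268.EV
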