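import Pool.Agent.X268.EV.Pure

/-!
# The weight-monodromy conjecture and the surjectivity of the evaluation
-/

set_option autoImplicit false
set_option linter.unusedSectionVars false

namespace Pool.Agent.X268.EV

open Module Pool.Agent.X268.WM
open scoped TensorProduct

universe u

variable {Ω : Type} [Field Ω] [CharZero Ω] {q : ℕ}

theorem surjective_F {W : FN.{u} Ω q} (hq : 1 < q) (hmix : W.IsMixed) :
    Function.Surjective W.F := by
  refine LinearMap.injective_iff_surjective.1 ?_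
  rw [injective_iff_map_eq_zero]
  intro x hx
  by_contra hne
  obtain ⟨w, hw⟩ := hmix 0 (Module.End.hasEigenvalue_of_hasEigenvector
    (Module.End.hasEigenvector_iff.2 ⟨Module.End.mem_eigenspace_iff.2 (by rw [hx, zero_smul]), hne⟩))
  exact hw.ne_zero (by omega) rfl

/-- The middle degree. -/
theorem middle_evaluation [IsAlgClosed Ω] (𝒞 : Cohomology.{u} Ω q) (hq : 1 < q) {n : ℕ}
    (X : 𝒞.Var n) (hB : SelfDual (𝒞.H X n) n) (hp : ∀ m ≤ 2 * n, m ≠ n → (𝒞.H X m).IsPure m)
    (hE : EvaluationSurjective q (𝒞.H X n).F2 (𝒞.H X n).N2 (2 * n)) :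
    (𝒞.H X n).IsPure n := by
  refine isPure_of_evaluation hq (surjective_F hq (𝒞.mixed X n)) (𝒞.mixed X n) hB hE
    (𝒞.duality X n (by omega)) (fun w a ha => ?_)
  have h1 := 𝒞.euler X a ((q : Ω) ^ w / a) ha.1 (ha.minpoly_conj (by omega)).symm
  unfold altMult at h1
  have h2 : ∀ m ∈ (Finset.range (2 * n + 1)).erase n, (-1 : ℤ) ^ m * ((𝒞.H X m).mult a : ℤ) =
      (-1 : ℤ) ^ m * ((𝒞.H X m).mult ((q : Ω) ^ w / a) : ℤ) := by
    intro m hm
    rw [Finset.mem_erase, Finset.mem_range] at hm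
    rw [conj_of_isPure hq (𝒞.duality X m (by omega)) (hp m (by omega) hm.1) w a ha]
  have hn : n ∈ Finset.range (2 * n + 1) := Finset.mem_range.2 (by omega)
  rw [← Finset.add_sum_erase _ _ hn, ← Finset.add_sum_erase _ _ hn, Finset.sum_congr rfl h2] at h1
  have h3 := add_right_cancel h1
  have h4 : ((-1 : ℤ)) ^ n ≠ 0 := pow_ne_zero _ (by norm_num)
  exact_mod_cast mul_left_cancel₀ h4 h3

/-- **The weight-monodromy conjecture follows from the surjectivity of the evaluation.** -/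
theorem weightMonodromy_of_evaluation [IsAlgClosed Ω] (𝒞 : Cohomology.{u} Ω q) (hq : 1 < q)
    (hB : ∀ (n : ℕ) (X : 𝒞.Var n), SelfDual (𝒞.H X n) n)
    (hE : ∀ (n : ℕ) (X : 𝒞.Var n),
      EvaluationSurjective q (𝒞.H X n).F2 (𝒞.H X n).N2 (2 * n)) :
    ∀ (n : ℕ) (X : 𝒞.Var n) (m : ℕ), m ≤ 2 * n → (𝒞.H X m).IsPure m := by
  intro n
  induction n with
  | zero =>
    intro X m hm
    have h0 : m = 0 := by omega
    subst h0
    exact middle_evaluation 𝒞 hq X (hB 0 X) (fun m hm h => absurd (by omega) h) (hE 0 X)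
  | succ n ih =>
    intro X
    obtain ⟨Y, hY⟩ := 𝒞.hyperplane X
    have hlow : ∀ m ≤ n, (𝒞.H X m).IsPure m := by
      intro m hm
      obtain ⟨f, hf, hF, hN⟩ := hY m hm
      exact isPure_of_sub hq (𝒞.mixed X m) (𝒞.duality X m (by omega)) (ih Y m (by omega)) hf hF hN
    have hhigh : ∀ m, n + 1 < m → m ≤ 2 * (n + 1) → (𝒞.H X m).IsPure m := by
      intro m h1 h2
      obtain ⟨l, hl, rfl⟩ : ∃ l, l ≤ n ∧ m = 2 * (n + 1) - l := ⟨2 * (n + 1) - m, by omega, by omega⟩
      obtain ⟨e, hF, hN⟩ := 𝒞.lefschetz X l (by omega)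
      have h3 := isPure_of_twist hq (𝒞.mixed X _) (hlow l hl) e hF hN
      rwa [show l + 2 * (n + 1 - l) = 2 * (n + 1) - l by omega] at h3
    intro m hm
    rcases lt_trichotomy m (n + 1) with h | h | h
    · exact hlow m (by omega)
    · subst h
      refine middle_evaluation 𝒞 hq X (hB _ X) (fun m hm hne => ?_) (hE _ X)
      rcases Nat.lt_or_ge m (n + 1) with h | h
      · exact hlow m (by omega)
      · exact hhigh m (by omega) hm
    · exact hhigh m h hm

/-- Powers of `q` are Weil numbers. -/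
theorem isWeil_pow (hq : 0 < q) (j : ℤ) : IsWeil q (2 * j) ((q : Ω) ^ j) := by
  have h1 : IsWeil q 0 (1 : Ω) := by
    refine ⟨isAlgebraic_one, fun z hz => ?_⟩
    have h2 : minpoly ℚ (1 : Ω) = Polynomial.X - Polynomial.C 1 := minpoly.one ℚ Ω
    rw [h2, map_sub, Polynomial.aeval_X, Polynomial.aeval_C, map_one, sub_eq_zero] at hz
    rw [hz]
    simp
  have h2 := h1.scale hq j
  rwa [zero_add, one_mul] at h2

/-- **The evaluation is surjective if purity is known.** -/
theorem evaluation_of_isPure (hq : 1 < q) {W : FN.{u} Ω q} {m : ℕ} (hp : W.IsPure m) :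
    EvaluationSurjective q W.F W.N m := by
  have hq0 : 0 < q := by omega
  have hqΩ : (q : Ω) ≠ 0 := by exact_mod_cast hq0.ne'
  intro r t hrt z hzF hzN
  have h1 : IsWeil q (m + t) ((q : Ω) ^ (r + t)) := by
    have h2 := isWeil_pow (Ω := Ω) hq0 (r + t)
    rwa [show 2 * (r + (t : ℤ)) = m + t by rw [← hrt]; ring] at h2
  obtain ⟨hinj, hsurj⟩ := hp.2 t _ h1
  have h2 : (q : Ω) ^ (r + t) / (q : Ω) ^ t = (q : Ω) ^ r := by
    rw [zpow_add₀ hqΩ, zpow_natCast, mul_div_assoc, div_self (pow_ne_zero _ hqΩ), mul_one]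
  obtain ⟨u, hu, huz⟩ := hsurj z (by rw [h2]; exact mem_gen.2 ⟨1, by simp [hzF]⟩)
  have huF : W.F u = (q : Ω) ^ (r + t) • u := by
    refine sub_eq_zero.1 (hinj _ (Submodule.sub_mem _
      (Module.End.mapsTo_maxGenEigenspace_of_comm (Commute.refl _) _ hu)
      (Submodule.smul_mem _ _ hu)) ?_)
    rw [map_sub, map_smul, N_pow_F, huz, hzF, smul_smul, zpow_add₀ hqΩ, zpow_natCast,
      mul_comm ((q : Ω) ^ t), sub_self]
  have hNF : ∀ k v, (q : Ω) ^ k • W.F ((W.N ^ k) v) = (W.N ^ k) (W.F v) := fun k v =>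
    (N_pow_F k v).symm
  refine ⟨fun j => (j.factorial : Ω) • (W.N ^ (t - j)) u, fun j hj => ⟨?_, ?_⟩, ?_⟩
  · rw [map_smul, smul_comm]
    congr 1
    have h3 := hNF (t - j) u
    rw [huF, map_smul] at h3
    have h4 : (q : Ω) ^ (r + t) = (q : Ω) ^ (t - j) * (q : Ω) ^ (r + j) := by
      rw [← zpow_natCast, ← zpow_add₀ hqΩ, Nat.cast_sub hj]
      congr 1
      ring
    rw [h4, mul_smul] at h3
    exact smul_right_injective W.V (pow_ne_zero _ hqΩ) h3
  · rcases j with _ | j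
    · simp only [Nat.factorial_zero, Nat.cast_one, one_smul, Nat.sub_zero, Nat.cast_zero, zero_smul,
        huz, hzN]
    · rw [map_smul, ← Module.End.mul_apply, ← pow_succ', show t - (j + 1) + 1 = t - j by omega,
        Nat.add_sub_cancel, smul_smul, Nat.factorial_succ]
      push_cast
      rfl
  · simp [huz]

end Pool.Agent.X268.EV
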