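import Pool.Agent.X268.EV.Core

/-!
# Purity from the surjectivity of the evaluation
-/

set_option autoImplicit false
set_option linter.unusedSectionVars false

namespace Pool.Agent.X268.EV

open Module Pool.Agent.X268.WM
open scoped TensorProduct

universe u

variable {Ω : Type} [Field Ω] [CharZero Ω] {q : ℕ} {W : FN.{u} Ω q}

/-- Elements of a generalized eigenspace in the range of `N ^ k`. -/
theorem range_gen [IsAlgClosed Ω] (hq : 0 < q) {k : ℕ} {b : Ω} {y : W.V}
    (hy : y ∈ W.F.maxGenEigenspace b) (hr : y ∈ LinearMap.range (W.N ^ k)) :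
    ∃ w ∈ W.F.maxGenEigenspace (b * (q : Ω) ^ k), (W.N ^ k) w = y := by
  have hqΩ : (q : Ω) ≠ 0 := by exact_mod_cast hq.ne'
  obtain ⟨w, rfl⟩ := hr
  have htop : w ∈ W.F.maxGenEigenspace (b * (q : Ω) ^ k) ⊔
      ⨆ c, ⨆ (_ : c ≠ b * (q : Ω) ^ k), W.F.maxGenEigenspace c := by
    have h1 : (⨆ c, W.F.maxGenEigenspace c) ≤ W.F.maxGenEigenspace (b * (q : Ω) ^ k) ⊔
        ⨆ c, ⨆ (_ : c ≠ b * (q : Ω) ^ k), W.F.maxGenEigenspace c := by
      refine iSup_le fun c => ?_
      by_cases hc : c = b * (q : Ω) ^ k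
      · rw [hc]
        exact le_sup_left
      · exact ((le_iSup (fun _ : c ≠ b * (q : Ω) ^ k => W.F.maxGenEigenspace c) hc).trans
          (le_iSup (fun c => ⨆ (_ : c ≠ b * (q : Ω) ^ k), W.F.maxGenEigenspace c) c)).trans
          le_sup_right
    rw [Module.End.iSup_maxGenEigenspace_eq_top] at h1
    exact h1 trivial
  obtain ⟨w0, hw0, w1, hw1, rfl⟩ := Submodule.mem_sup.1 htop
  refine ⟨w0, hw0, ?_⟩
  have h2 : (W.N ^ k) w1 ∈ ⨆ c, ⨆ (_ : c ≠ b), W.F.maxGenEigenspace c := by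
    have h3 : (⨆ c, ⨆ (_ : c ≠ b * (q : Ω) ^ k), W.F.maxGenEigenspace c) ≤
        (⨆ c, ⨆ (_ : c ≠ b), W.F.maxGenEigenspace c).comap (W.N ^ k) := by
      refine iSup₂_le fun c hc x hx => ?_
      have h4 := N_pow_mem hq k hx
      refine Submodule.mem_comap.2 (Submodule.mem_iSup_of_mem (c / (q : Ω) ^ k)
        (Submodule.mem_iSup_of_mem ?_ h4))
      intro h5
      refine hc ?_
      rw [← h5, div_mul_cancel₀ _ (pow_ne_zero _ hqΩ)]
    exact h3 hw1
  have h3 : (W.N ^ k) w1 ∈ W.F.maxGenEigenspace b := by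
    have h4 : (W.N ^ k) w0 ∈ W.F.maxGenEigenspace b := by
      have := N_pow_mem hq k hw0
      rwa [mul_div_assoc, div_self (pow_ne_zero _ hqΩ), mul_one] at this
    rw [map_add] at hy
    have h5 := Submodule.sub_mem _ hy h4
    rwa [add_sub_cancel_left] at h5
  have h4 : (W.N ^ k) w1 = 0 := by
    have h5 := W.F.independent_maxGenEigenspace b
    exact Submodule.disjoint_def.1 h5 _ h3 h2
  rw [map_add, h4, add_zero]

/-- From the kernel of `N` to all elements. -/
theorem mem_of_ker [IsAlgClosed Ω] (hq : 0 < q) {b : Ω} {s : ℕ}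
    (h : ∀ l : ℕ, ∀ x ∈ W.F.maxGenEigenspace (b / (q : Ω) ^ l), W.N x = 0 →
      x ∈ LinearMap.range (W.N ^ (s + 2 * l))) (l : ℕ) {y : W.V}
    (hy : y ∈ W.F.maxGenEigenspace (b / (q : Ω) ^ l)) : y ∈ LinearMap.range (W.N ^ (s + 2 * l)) := by
  have hmain : ∀ e l : ℕ, ∀ y ∈ W.F.maxGenEigenspace (b / (q : Ω) ^ l), (W.N ^ e) y = 0 →
      y ∈ LinearMap.range (W.N ^ (s + 2 * l)) := by
    intro e
    induction e with
    | zero =>
      intro l y _ h0
      rw [pow_zero, Module.End.one_apply] at h0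
      rw [h0]
      exact Submodule.zero_mem _
    | succ e ih =>
      intro l y hy h0
      have h1 : W.N y ∈ W.F.maxGenEigenspace (b / (q : Ω) ^ (l + 1)) := by
        rw [pow_succ, ← div_div]
        exact N_mem hq hy
      have h2 : (W.N ^ e) (W.N y) = 0 := by
        rw [← Module.End.mul_apply, ← pow_succ, h0]
      obtain ⟨w, hw, hwy⟩ := range_gen hq h1 (ih (l + 1) _ h1 h2)
      have h3 : (W.N ^ (s + 2 * l + 1)) w ∈ W.F.maxGenEigenspace (b / (q : Ω) ^ l) := by
        have h4 := N_pow_mem hq (s + 2 * l + 1) hw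
        have hqΩ : (q : Ω) ≠ 0 := by exact_mod_cast hq.ne'
        have h5 : b / (q : Ω) ^ (l + 1) * (q : Ω) ^ (s + 2 * (l + 1)) / (q : Ω) ^ (s + 2 * l + 1) =
            b / (q : Ω) ^ l := by
          rw [show s + 2 * (l + 1) = (s + 2 * l + 1) + 1 by ring, pow_succ (q : Ω) (s + 2 * l + 1),
            pow_succ (q : Ω) l]
          field_simp
        rwa [h5] at h4
      have h6 : y - (W.N ^ (s + 2 * l + 1)) w ∈ LinearMap.range (W.N ^ (s + 2 * l)) := by
        refine h l _ (Submodule.sub_mem _ hy h3) ?_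
        rw [map_sub, ← Module.End.mul_apply, ← pow_succ', show s + 2 * l + 1 + 1 = s + 2 * (l + 1) by
          ring, hwy, sub_self]
      have h7 : (W.N ^ (s + 2 * l + 1)) w ∈ LinearMap.range (W.N ^ (s + 2 * l)) := by
        refine ⟨W.N w, ?_⟩
        rw [← Module.End.mul_apply, ← pow_succ]
      have h8 := Submodule.add_mem _ h6 h7
      rwa [sub_add_cancel] at h8
  obtain ⟨c, hc⟩ := W.nilpotent
  exact hmain c l y hy (by rw [hc, LinearMap.zero_apply])

theorem mult_le_of_surj (hq : 0 < q) {k : ℕ} {b : Ω}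
    (h : ∀ y ∈ W.F.maxGenEigenspace b, ∃ w ∈ W.F.maxGenEigenspace (b * (q : Ω) ^ k),
      (W.N ^ k) w = y) : W.mult b ≤ W.mult (b * (q : Ω) ^ k) := by
  have hqΩ : (q : Ω) ≠ 0 := by exact_mod_cast hq.ne'
  let f : W.F.maxGenEigenspace (b * (q : Ω) ^ k) →ₗ[Ω] W.F.maxGenEigenspace b :=
    (W.N ^ k).restrict fun v hv => by
      have := N_pow_mem hq k hv
      rwa [mul_div_assoc, div_self (pow_ne_zero _ hqΩ), mul_one] at this
  refine LinearMap.finrank_le_finrank_of_surjective (f := f) fun y => ?_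
  obtain ⟨w, hw, hwy⟩ := h y y.2
  exact ⟨⟨w, hw⟩, Subtype.ext hwy⟩

/-- The operator `g`. -/
theorem exists_g {n : ℕ} (hF : Function.Surjective W.F) (hB : SelfDual W n) (hq : 0 < q)
    (hE : EvaluationSurjective q W.F2 W.N2 (2 * n)) :
    ∃ f g : End Ω W.V, W.N * f = f * W.N + g ∧ g * W.N = W.N * g - W.N ∧ g * W.F = W.F * g := by
  have hqΩ : (q : Ω) ≠ 0 := by exact_mod_cast hq.ne'
  obtain ⟨B, hB0, hBF, hBN⟩ := hB
  have hBinj : Function.Injective B := by
    rw [injective_iff_map_eq_zero]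
    exact fun x hx => hB0 x fun y => by rw [hx, LinearMap.zero_apply]
  have hBbij : Function.Bijective B :=
    ⟨hBinj, (LinearMap.injective_iff_surjective_of_finrank_eq_finrank
      (Subspace.dual_finrank_eq).symm).1 hBinj⟩
  let e : W.V ≃ₗ[Ω] Dual Ω W.V := LinearEquiv.ofBijective B hBbij
  let Θ : W.V ⊗[Ω] W.V ≃ₗ[Ω] End Ω W.V :=
    (TensorProduct.comm Ω W.V W.V).trans ((TensorProduct.congr e (LinearEquiv.refl Ω W.V)).trans
      (dualTensorHomEquiv Ω W.V W.V))
  have hΘ : ∀ x y w, Θ (x ⊗ₜ[Ω] y) w = B y w • x := by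
    intro x y w
    rfl
  have hΘF : ∀ z w, Θ (W.F2 z) (W.F w) = (q : Ω) ^ n • W.F (Θ z w) := by
    intro z w
    induction z using TensorProduct.induction_on with
    | zero => simp
    | add a b ha hb => rw [map_add, map_add, LinearMap.add_apply, ha, hb, map_add,
        LinearMap.add_apply, map_add, smul_add]
    | tmul x y =>
      unfold FN.F2
      rw [TensorProduct.map_tmul, hΘ, hΘ, hBF, map_smul, smul_smul]
  have hΘN : ∀ z w, Θ (W.N2 z) w = W.N (Θ z w) - Θ z (W.N w) := by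
    intro z w
    induction z using TensorProduct.induction_on with
    | zero => simp
    | add a b ha hb =>
      rw [map_add, map_add, LinearMap.add_apply, ha, hb, map_add, LinearMap.add_apply, map_add,
        LinearMap.add_apply]
      abel
    | tmul x y =>
      unfold FN.N2
      rw [LinearMap.add_apply, TensorProduct.map_tmul, TensorProduct.map_tmul, map_add,
        LinearMap.add_apply, hΘ, hΘ, hΘ, hΘ, LinearMap.id_apply, LinearMap.id_apply, hBN, map_smul,
        neg_smul, sub_eq_add_neg]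
  obtain ⟨ν, hν⟩ := Θ.surjective W.N
  have hνF : W.F2 ν = (q : Ω) ^ ((n : ℤ) - 1) • ν := by
    apply Θ.injective
    refine LinearMap.ext fun w => ?_
    obtain ⟨w, rfl⟩ := hF w
    rw [hΘF, map_smul, LinearMap.smul_apply, hν, W.comm, smul_smul, zpow_sub_one₀ hqΩ, zpow_natCast,
      mul_assoc, inv_mul_cancel₀ hqΩ, mul_one]
  have hνN : W.N2 ν = 0 := by
    apply Θ.injective
    refine LinearMap.ext fun w => ?_
    rw [hΘN, hν, sub_self, map_zero, LinearMap.zero_apply]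
  obtain ⟨u, huF, huN⟩ := exists_of_evaluation hE (r := (n : ℤ) - 1) (t := 2) (by push_cast; ring)
    hνF hνN
  have hfF : ∀ w, Θ u (W.F w) = (q : Ω)⁻¹ • W.F (Θ u w) := by
    intro w
    have h1 := hΘF u w
    rw [huF, map_smul, LinearMap.smul_apply] at h1
    have h2 : (q : Ω) ^ ((n : ℤ) - 1 + (2 : ℕ)) = (q : Ω) ^ n * q := by
      rw [show (n : ℤ) - 1 + (2 : ℕ) = ((n + 1 : ℕ) : ℤ) by push_cast; ring, zpow_natCast, pow_succ]
    rw [h2, mul_smul] at h1
    have h3 := smul_right_injective W.V (pow_ne_zero n hqΩ) h1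
    rw [← h3, smul_smul, inv_mul_cancel₀ hqΩ, one_smul]
  have hfN : ∀ w, W.N (W.N (Θ u w)) - W.N (Θ u (W.N w)) - (W.N (Θ u (W.N w)) - Θ u (W.N (W.N w))) =
      W.N w := by
    intro w
    have h1 : Θ ((W.N2 ^ 2) u) w = W.N w := by rw [huN, hν]
    rw [pow_two, Module.End.mul_apply, hΘN, hΘN, hΘN, map_sub] at h1
    exact h1
  refine ⟨Θ u, W.N * Θ u - Θ u * W.N, by abel, ?_, ?_⟩
  · refine LinearMap.ext fun w => ?_
    simp only [Module.End.mul_apply, LinearMap.sub_apply, map_sub]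
    have h1 := hfN w
    refine sub_eq_zero.1 ?_
    rw [← neg_eq_zero]
    refine Eq.trans ?_ (sub_eq_zero.2 h1)
    abel
  · refine LinearMap.ext fun w => ?_
    simp only [Module.End.mul_apply, LinearMap.sub_apply, map_sub]
    rw [hfF, map_smul, W.comm, smul_smul, inv_mul_cancel₀ hqΩ, one_smul, W.comm, map_smul, hfF,
      smul_smul, mul_inv_cancel₀ hqΩ, one_smul]

/-- The eigenvectors in the kernel of `N`, of weight less than `n`. -/
theorem depth_of_evaluation [IsAlgClosed Ω] (hq : 1 < q) {n : ℕ} (hF : Function.Surjective W.F)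
    (hB : SelfDual W n) (hE : EvaluationSurjective q W.F2 W.N2 (2 * n))
    (hdual : ∀ a : Ω, a ≠ 0 → W.mult a = W.mult ((q : Ω) ^ n / a))
    (hconj : ∀ (w : ℤ) (a : Ω), IsWeil q w a → W.mult a = W.mult ((q : Ω) ^ w / a))
    {a : Ω} {s : ℕ} (ha : IsWeil q ((n : ℤ) - s) a) {z : W.V} (hz : z ∈ W.F.maxGenEigenspace a)
    (hzN : W.N z = 0) : z ∈ LinearMap.range (W.N ^ s) := by
  have hq0 : 0 < q := by omega
  have hqΩ : (q : Ω) ≠ 0 := by exact_mod_cast hq0.ne'
  obtain ⟨f, g, hf, hg, hgF⟩ := exists_g hF hB hq0 hE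
  -- from eigenvectors to generalized eigenvectors
  have hgen : ∀ (b : Ω) (d : ℕ), (∀ x : W.V, W.F x = b • x → W.N x = 0 →
      x ∈ LinearMap.range (W.N ^ d)) → ∀ x ∈ W.F.maxGenEigenspace b, W.N x = 0 →
      x ∈ LinearMap.range (W.N ^ d) := by
    intro b d h x hx hxN
    have hcomm : Commute W.F g := hgF.symm
    have hK := le_range_of_eigenvectors (Ω := Ω) W.nilpotent hf hg hgF
      (K := W.F.maxGenEigenspace b ⊓ LinearMap.ker W.N) (s := d)
      (fun x hx => LinearMap.mem_ker.1 hx.2)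
      (fun x hx => ⟨Module.End.mapsTo_maxGenEigenspace_of_comm (Commute.refl _) b hx.1,
        LinearMap.mem_ker.2 (by rw [W.comm, LinearMap.mem_ker.1 hx.2, map_zero, smul_zero])⟩)
      (fun x hx => ⟨Module.End.mapsTo_maxGenEigenspace_of_comm hcomm b hx.1,
        LinearMap.mem_ker.2 (by
          have h1 := LinearMap.congr_fun hg x
          simp only [Module.End.mul_apply, LinearMap.sub_apply, LinearMap.mem_ker.1 hx.2, map_zero,
            sub_zero] at h1
          exact h1.symm)⟩)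
      (fun x hx c hc => by
        by_cases hx0 : x = 0
        · rw [hx0]
          exact Submodule.zero_mem _
        · have hcb : c = b := by
            by_contra hne
            have h1 : x ∈ W.F.maxGenEigenspace c :=
              mem_gen.2 ⟨1, by simp [hc]⟩
            have h2 := W.F.independent_maxGenEigenspace b
            exact hx0 (Submodule.disjoint_def.1 h2 x hx.1
              (Submodule.mem_iSup_of_mem c (Submodule.mem_iSup_of_mem hne h1)))
          exact h x (by rw [hc, hcb]) (LinearMap.mem_ker.1 hx.2))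
    exact hK ⟨hx, LinearMap.mem_ker.2 hxN⟩
  suffices hmain : ∀ z : W.V, W.F z = a • z → W.N z = 0 → z ∈ LinearMap.range (W.N ^ s) from
    hgen a s hmain z hz hzN
  clear hz hzN z
  intro z hFz hzN
  by_contra hzs
  have ha0 : a ≠ 0 := ha.ne_zero hq0
  have hs : s ≠ 0 := by
    rintro rfl
    exact hzs ⟨z, by simp⟩
  obtain ⟨s', rfl⟩ := Nat.exists_eq_succ_of_ne_zero hs
  -- the conjugate eigenvalue
  set c : Ω := (q : Ω) ^ ((n : ℤ) - (s' + 1 : ℕ)) / a with hc
  have hcw : IsWeil q ((n : ℤ) - (s' + 1 : ℕ)) c := ha.conj hq0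
  have hc0 : c ≠ 0 := hcw.ne_zero hq0
  have hker : ∀ l : ℕ, ∀ x ∈ W.F.maxGenEigenspace (c / (q : Ω) ^ l), W.N x = 0 →
      x ∈ LinearMap.range (W.N ^ (s' + 2 + 2 * l)) := by
    intro l
    refine hgen _ _ fun y hFy hyN => ?_
    by_contra hyd
    have h1 : W.F2 (z ⊗ₜ[Ω] y) = (q : Ω) ^ ((n : ℤ) - (s' + 1 : ℕ) - l) • (z ⊗ₜ[Ω] y) := by
      unfold FN.F2
      rw [TensorProduct.map_tmul, hFz, hFy, TensorProduct.smul_tmul_smul]
      congr 1
      rw [hc, zpow_sub₀ hqΩ _ (l : ℤ), zpow_natCast]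
      field_simp
    have h2 : W.N2 (z ⊗ₜ[Ω] y) = 0 := by
      unfold FN.N2
      rw [LinearMap.add_apply, TensorProduct.map_tmul, TensorProduct.map_tmul, hzN, hyN,
        TensorProduct.zero_tmul, TensorProduct.tmul_zero, add_zero]
    obtain ⟨u, -, hu⟩ := exists_of_evaluation hE (r := (n : ℤ) - (s' + 1 : ℕ) - l)
      (t := 2 * (s' + 1) + 2 * l) (by push_cast; ring) h1 h2
    exact tensor_depth (t := 2 * (s' + 1) + 2 * l) hzs
      (show y ∉ LinearMap.range (W.N ^ (s' + 1 + 2 * l + 1)) by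
        rwa [show s' + 1 + 2 * l + 1 = s' + 2 + 2 * l by ring]) (by omega) ⟨u, hu⟩
  have hstep : ∀ l : ℕ, W.mult (c / (q : Ω) ^ l) ≤ W.mult (c / (q : Ω) ^ (l + 1)) := by
    intro l
    refine (mult_le_of_surj hq0 (k := s' + 2 + 2 * l) fun y hy =>
      range_gen hq0 hy (mem_of_ker hq0 hker l hy)).trans (le_of_eq ?_)
    have h1 : IsWeil q ((n : ℤ) + (s' + 2 * l + 3 : ℕ))
        (c / (q : Ω) ^ l * (q : Ω) ^ (s' + 2 + 2 * l)) := by
      have h2 := hcw.scale hq0 ((s' + 2 + 2 * l : ℕ) - (l : ℤ))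
      have h3 : (n : ℤ) - (s' + 1 : ℕ) + 2 * ((s' + 2 + 2 * l : ℕ) - (l : ℤ)) =
          (n : ℤ) + (s' + 2 * l + 3 : ℕ) := by push_cast; ring
      have h4 : c * (q : Ω) ^ (((s' + 2 + 2 * l : ℕ) : ℤ) - (l : ℤ)) =
          c / (q : Ω) ^ l * (q : Ω) ^ (s' + 2 + 2 * l) := by
        rw [zpow_sub₀ hqΩ, zpow_natCast, zpow_natCast]
        ring
      rwa [h3, h4] at h2
    have h2 := h1.conj hq0
    rw [hconj _ _ h1, hdual _ (h2.ne_zero hq0)]
    congr 1
    rw [← Nat.cast_add, zpow_natCast]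
    have h3 : (q : Ω) ^ (n + (s' + 2 * l + 3)) = (q : Ω) ^ n * ((q : Ω) ^ (s' + 2 + 2 * l) * q) := by
      rw [← pow_succ, ← pow_add]
      congr 1
      ring
    rw [h3, pow_succ]
    field_simp
  have hmono : ∀ l, W.mult c ≤ W.mult (c / (q : Ω) ^ l) := by
    intro l
    induction l with
    | zero => simp
    | succ l ih => exact ih.trans (hstep l)
  obtain ⟨l, hl⟩ := exists_mult_zero (W := W) hq (b := (q : Ω) ^ n / c)
    (div_ne_zero (pow_ne_zero _ hqΩ) hc0)
  have h1 : W.mult (c / (q : Ω) ^ l) = 0 := by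
    rw [hdual _ (div_ne_zero hc0 (pow_ne_zero _ hqΩ)), ← hl]
    congr 1
    field_simp
  have h2 : W.mult c = 0 := Nat.le_zero.1 ((hmono l).trans (le_of_eq h1))
  rw [hc, ← hconj _ _ ha] at h2
  have hz0 : z ≠ 0 := by
    rintro rfl
    exact hzs (Submodule.zero_mem _)
  exact (mult_pos (mem_gen.2 ⟨1, by simp [hFz]⟩) hz0).ne' h2

/-- **Purity from the surjectivity of the evaluation.** -/
theorem isPure_of_evaluation [IsAlgClosed Ω] (hq : 1 < q) {n : ℕ} (hF : Function.Surjective W.F)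
    (hmix : W.IsMixed) (hB : SelfDual W n) (hE : EvaluationSurjective q W.F2 W.N2 (2 * n))
    (hdual : ∀ a : Ω, a ≠ 0 → W.mult a = W.mult ((q : Ω) ^ n / a))
    (hconj : ∀ (w : ℤ) (a : Ω), IsWeil q w a → W.mult a = W.mult ((q : Ω) ^ w / a)) :
    W.IsPure n := by
  have hq0 : 0 < q := by omega
  have hqΩ : (q : Ω) ≠ 0 := by exact_mod_cast hq0.ne'
  refine ⟨hmix, fun k a ha => ?_⟩
  have ha0 : a ≠ 0 := ha.ne_zero hq0
  have hw : ∀ l : ℕ, IsWeil q ((n : ℤ) - (k + 2 * l : ℕ)) (a / (q : Ω) ^ k / (q : Ω) ^ l) := by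
    intro l
    have h2 := ha.scale hq0 (-(k : ℤ) - l)
    have h3 : (n : ℤ) + k + 2 * (-(k : ℤ) - l) = (n : ℤ) - (k + 2 * l : ℕ) := by push_cast; ring
    have h4 : a * (q : Ω) ^ (-(k : ℤ) - l) = a / (q : Ω) ^ k / (q : Ω) ^ l := by
      rw [sub_eq_add_neg, zpow_add₀ hqΩ, zpow_neg, zpow_neg, zpow_natCast, zpow_natCast]
      field_simp
    rwa [h3, h4] at h2
  have hsurj : ∀ u ∈ W.F.maxGenEigenspace (a / (q : Ω) ^ k),
      ∃ v ∈ W.F.maxGenEigenspace a, (W.N ^ k) v = u := by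
    intro u hu
    have h1 := mem_of_ker (s := k) hq0
      (fun l x hx hxN => depth_of_evaluation hq hF hB hE hdual hconj (hw l) hx hxN) 0
      (by simpa using hu)
    obtain ⟨w, hw1, hw2⟩ := range_gen hq0 hu (by simpa using h1)
    rw [div_mul_cancel₀ _ (pow_ne_zero _ hqΩ)] at hw1
    exact ⟨w, hw1, hw2⟩
  refine ⟨?_, hsurj⟩
  have hd : W.mult a = W.mult (a / (q : Ω) ^ k) := by
    rw [hconj _ _ ha, hdual _ (ha.conj hq0 |>.ne_zero hq0)]
    congr 1
    rw [← Nat.cast_add, zpow_natCast, pow_add]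
    field_simp
  let f : W.F.maxGenEigenspace a →ₗ[Ω] W.F.maxGenEigenspace (a / (q : Ω) ^ k) :=
    (W.N ^ k).restrict fun v hv => N_pow_mem hq0 k hv
  have hs : Function.Surjective f := fun u => by
    obtain ⟨v, hv, he⟩ := hsurj u u.2
    exact ⟨⟨v, hv⟩, Subtype.ext he⟩
  have hi : Function.Injective f :=
    (LinearMap.injective_iff_surjective_of_finrank_eq_finrank hd).2 hs
  intro v hv h0
  exact congrArg Subtype.val ((injective_iff_map_eq_zero f).1 hi ⟨v, hv⟩ (Subtype.ext h0))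

end Pool.Agent.X268.EV
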